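import Pool.Agent.V5helper78.KP.Eng

/-!
# Functions pinched by quadratic forms
-/

set_option autoImplicit false

namespace Pool.Agent.V5helper78.KP

open MeasureTheory Set Filter Topology Metric
open scoped ENNReal InnerProductSpace
open Pool.Agent.R754.KG (E un)
open Pool.Agent.Y506.PV (CcW ind)
open Pool.Agent.Y506.RG (Star)
open Pool.Agent.R751.MB (AP)
open Pool.Agent.R755.KS (km_profile)
open Pool.Agent.N483.KM

theorem posdef_equiv {n : ℕ} (Q : QuadraticForm ℝ (E n)) (hQ : ∀ x, x ≠ 0 → 0 < Q x) :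
    ∃ (n' : ℕ) (M : E n ≃ₗ[ℝ] E n'), ∀ x, ‖M x‖ ^ 2 = Q x := by
  classical
  obtain ⟨w, hw, ⟨f⟩⟩ := Q.equivalent_one_zero_neg_one_weighted_sum_squared
  have hf : ∀ x, Q x = ∑ i, w i * (f x i * f x i) := by
    intro x
    rw [← f.map_app, QuadraticMap.weightedSumSquares_apply]
    rfl
  have hw1 : ∀ i, w i = 1 := by
    intro i
    have h1 : (Pi.single i 1 : Fin (Module.finrank ℝ (E n)) → ℝ) ≠ 0 := by
      rw [Ne, Pi.single_eq_zero_iff]
      exact one_ne_zero
    have h2 : f.toLinearEquiv.symm (Pi.single i 1) ≠ 0 := by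
      rw [Ne, LinearEquiv.map_eq_zero_iff]
      exact h1
    have h3 := hQ _ h2
    rw [hf] at h3
    have h4 : f (f.toLinearEquiv.symm (Pi.single i 1)) = Pi.single i 1 :=
      f.toLinearEquiv.apply_symm_apply _
    rw [h4, Finset.sum_eq_single i (fun j _ hj => by rw [Pi.single_eq_of_ne hj]; ring)
      (fun h => absurd (Finset.mem_univ i) h), Pi.single_eq_same, mul_one, mul_one] at h3
    rcases hw i with h | h | h
    · rw [h] at h3; norm_num at h3
    · rw [h] at h3; norm_num at h3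
    · exact h
  refine ⟨Module.finrank ℝ (E n), f.toLinearEquiv.trans
    (WithLp.linearEquiv 2 ℝ (Fin (Module.finrank ℝ (E n)) → ℝ)).symm, fun x => ?_⟩
  rw [EuclideanSpace.real_norm_sq_eq, hf]
  refine Finset.sum_congr rfl fun i _ => ?_
  rw [hw1, one_mul, sq]
  rfl

/-- `Q ≤ Hess S ≤ κ Q` -/
structure Pq (κ : ℝ) {n : ℕ} (Q : QuadraticForm ℝ (E n)) (S : E n → ℝ) : Prop where
  nn : ∀ x, 0 ≤ Q x
  lo : ConvexOn ℝ univ fun x => S x - Q x / 2
  up : ConvexOn ℝ univ fun x => κ * Q x / 2 - S x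

theorem comp_conv {n m : ℕ} {f : E n → ℝ} (h : ConvexOn ℝ univ f) (M : E m →ₗ[ℝ] E n) :
    ConvexOn ℝ univ fun x => f (M x) := by
  have := h.comp_linearMap M
  rwa [preimage_univ] at this

theorem Pq.pn {κ : ℝ} {n m : ℕ} {Q : QuadraticForm ℝ (E n)} {S : E n → ℝ} (h : Pq κ Q S)
    (M : E n ≃ₗ[ℝ] E m) (hM : ∀ x, ‖M x‖ ^ 2 = Q x) : Pn κ 1 fun y => S (M.symm y) := by
  have hQ : ∀ y, Q (M.symm y) = ‖y‖ ^ 2 := fun y => by rw [← hM, LinearEquiv.apply_symm_apply]
  refine ⟨zero_le_one, ?_, ?_⟩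
  · refine (comp_conv h.lo M.symm.toLinearMap).congr fun y _ => ?_
    simp only [LinearEquiv.coe_coe, hQ]
    ring
  · refine (comp_conv h.up M.symm.toLinearMap).congr fun y _ => ?_
    simp only [LinearEquiv.coe_coe, hQ]
    ring

theorem qsq_conv {n : ℕ} (Q : QuadraticForm ℝ (E n)) (hQ : ∀ x, 0 ≤ Q x) :
    ConvexOn ℝ univ fun x => Q x := by
  refine ⟨convex_univ, fun x _ y _ a b ha hb hab => ?_⟩
  simp only [smul_eq_mul]
  have h1 : Q (a • x + b • y) = a * a * Q x + b * b * Q y + a * b * QuadraticMap.polar Q x y := by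
    rw [QuadraticMap.map_add Q, QuadraticMap.map_smul, QuadraticMap.map_smul,
      QuadraticMap.polar_smul_left, QuadraticMap.polar_smul_right]
    simp only [smul_eq_mul]
    ring
  have h2 : 0 ≤ Q x + Q y - QuadraticMap.polar Q x y := by
    have h3 := hQ (x + (-1 : ℝ) • y)
    rw [QuadraticMap.map_add Q, QuadraticMap.map_smul, QuadraticMap.polar_smul_right] at h3
    simp only [smul_eq_mul] at h3
    linarith
  have hb1 : b = 1 - a := by linarith
  have h4 : a * Q x + b * Q y - Q (a • x + b • y) =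
      a * b * (Q x + Q y - QuadraticMap.polar Q x y) := by
    rw [h1, hb1]; ring
  have h5 : 0 ≤ a * b * (Q x + Q y - QuadraticMap.polar Q x y) := by positivity
  linarith

theorem Pq.conv {κ : ℝ} {n : ℕ} {Q : QuadraticForm ℝ (E n)} {S : E n → ℝ} (h : Pq κ Q S) :
    ConvexOn ℝ univ S := by
  have h1 := h.lo.add ((qsq_conv Q h.nn).smul (by norm_num : (0 : ℝ) ≤ 1 / 2))
  refine h1.congr fun x _ => ?_
  simp only [Pi.add_apply, smul_eq_mul]
  ring

/-- the case of positive definite forms -/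
theorem quad_cc (κ : ℝ) (r : ℕ) (δ : ℝ) (hδ : 0 < δ) : ∃ κ' : ℝ, 0 < κ' ∧ ∀ (n : ℕ)
    (Q : Fin r → QuadraticForm ℝ (E n)) (S : Fin r → E n → ℝ) (e : Fin r → ℝ), 1 ≤ n → 1 ≤ r →
    (∀ j, Pq κ (Q j) (S j)) → (∀ j x, x ≠ 0 → 0 < Q j x) → (∃ x, ∀ j, S j x < e j) →
    CcW κ' δ (ind {x : E n | ∀ j, S j x ≤ e j}) := by
  set κ₁ : ℝ := max κ 1 with hκ₁
  have hκ1 : 0 < κ₁ := lt_max_of_lt_right one_pos
  obtain ⟨δ', hδ', h3⟩ := gibR r 0 δ hδ
  obtain ⟨κ', hκ', h4⟩ := Pool.Agent.R751.MB.apc (2 * κ₁) δ' (by positivity) hδ'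
  obtain ⟨κ₂, hκ₂, h5⟩ := h3 κ' hκ'
  refine ⟨κ₂, hκ₂, ?_⟩
  intro n Q S e hn hr hP hQ hx
  -- lower bounds
  have hlow : ∀ j, ∃ C c : ℝ, 0 < c ∧ ∀ x, c * ‖x‖ - C ≤ S j x := by
    intro j
    obtain ⟨m, M, hM⟩ := posdef_equiv (Q j) (hQ j)
    obtain ⟨C, hC⟩ := ((hP j).pn M hM).grow one_pos
    let M' : E m →L[ℝ] E n := LinearMap.toContinuousLinearMap M.symm.toLinearMap
    refine ⟨C, (‖M'‖ + 1)⁻¹, by positivity, fun x => ?_⟩
    have h1 := hC (M x)
    simp only [LinearEquiv.symm_apply_apply] at h1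
    have h2 : ‖x‖ ≤ (‖M'‖ + 1) * ‖M x‖ := by
      have h3 : M' (M x) = x := M.symm_apply_apply x
      have h4 := M'.le_opNorm (M x)
      rw [h3] at h4
      nlinarith [norm_nonneg (M x)]
    have h3 : (‖M'‖ + 1)⁻¹ * ‖x‖ ≤ ‖M x‖ := by
      rw [inv_mul_le_iff₀ (by positivity)]
      exact h2
    linarith
  choose C c hc hlow using hlow
  let ψ : (E n × E 0) ≃ₗ[ℝ] E n :=
    { toFun := fun z => z.1
      map_add' := fun x y => rfl
      map_smul' := fun c x => rfl
      invFun := fun x => (x, 0)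
      left_inv := fun z => Prod.ext rfl (Subsingleton.elim _ _)
      right_inv := fun x => rfl }
  let U : Fin r → E n → ℝ := fun j x => S j x + C j
  let e' : Fin r → ℝ := fun j => e j + C j
  have hKe : {x : E n | ∀ j, S j x ≤ e j} = {x : E n | ∀ j, U j (ψ (x, 0)) ≤ e' j} := by
    ext x
    change (∀ j, S j x ≤ e j) ↔ ∀ j, S j x + C j ≤ e j + C j
    simp only [add_le_add_iff_right]
  rw [hKe]
  have hUc : ∀ j, ConvexOn ℝ univ (U j) := fun j => (hP j).conv.add_const (C j)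
  have hU0 : ∀ j z, 0 ≤ U j z := by
    intro j z
    have h1 := hlow j z
    have h2 : 0 ≤ c j * ‖z‖ := mul_nonneg (hc j).le (norm_nonneg _)
    change 0 ≤ S j z + C j
    linarith
  refine h5 n n ψ U e' hn hUc hU0 (fun s => ?_) ?_ fun l t hl => ?_
  · let j0 : Fin r := ⟨0, hr⟩
    refine (Metric.isBounded_closedBall (x := (0 : E n)) (r := s j0 / c j0)).subset fun z hz => ?_
    rw [mem_closedBall_zero_iff, le_div_iff₀ (hc j0)]
    have h1 := hlow j0 z
    have h2 : S j0 z + C j0 ≤ s j0 := hz j0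
    linarith
  · obtain ⟨x, hx⟩ := hx
    refine ⟨x, fun j => ?_⟩
    change S j x + C j < e j + C j
    linarith [hx j]
  · -- the Gibbs weights
    let j0 : Fin r := ⟨0, hr⟩
    let Ql : QuadraticForm ℝ (E n) := ∑ j, l j • Q j
    have hQl : ∀ x, Ql x = ∑ j, l j * Q j x := by
      intro x
      simp only [Ql, _root_.sum_apply, _root_.smul_apply, smul_eq_mul]
    have hQlp : ∀ x, x ≠ 0 → 0 < Ql x := by
      intro x hx0
      rw [hQl]
      refine lt_of_lt_of_le (mul_pos (hl j0) (hQ j0 x hx0)) (Finset.single_le_sum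
        (f := fun j => l j * Q j x) (fun j _ => mul_nonneg (hl j).le ((hP j).nn x))
        (Finset.mem_univ j0))
    obtain ⟨m, M, hM⟩ := posdef_equiv Ql hQlp
    have hPl : Pq κ Ql fun x => ∑ j, l j * U j x := by
      refine ⟨fun x => ?_, ?_, ?_⟩
      · rw [hQl]
        exact Finset.sum_nonneg fun j _ => mul_nonneg (hl j).le ((hP j).nn x)
      · have h1 := conv_sum (k := n) Finset.univ
          (f := fun j x => l j • (S j x - Q j x / 2 + C j)) fun j _ =>
            ((hP j).lo.add_const (C j)).smul (hl j).le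
        refine h1.congr fun x _ => ?_
        simp only [hQl, smul_eq_mul, Finset.sum_div, ← Finset.sum_sub_distrib]
        refine Finset.sum_congr rfl fun j _ => ?_
        simp only [U]
        ring
      · have h1 := conv_sum (k := n) Finset.univ
          (f := fun j x => l j • (κ * Q j x / 2 - S j x + -C j)) fun j _ =>
            ((hP j).up.add_const (-C j)).smul (hl j).le
        refine h1.congr fun x _ => ?_
        simp only [hQl, smul_eq_mul, Finset.mul_sum, Finset.sum_div, ← Finset.sum_sub_distrib]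
        refine Finset.sum_congr rfl fun j _ => ?_
        simp only [U]
        ring
    have h6 := ((hPl.pn M hM).mono (le_max_left κ 1)).ap one_pos hκ1
    have h7 := Pool.Agent.R751.MB.lin (Fin m) (Fin n) (2 * κ₁) M.symm _ h6
    have hgw : gw ψ U l t = fun z => Real.exp (-(∑ j, l j * U j (M.symm (M.symm.symm z)))) := by
      funext z
      have ht : t = 0 := Subsingleton.elim _ _
      unfold gw
      rw [ht, inner_zero_left, add_zero, LinearEquiv.apply_symm_apply]
    rw [hgw]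
    exact ⟨⟨h7.adm.nonneg, h7.adm.int, h7.adm.pos, h7.adm.meas⟩, h4 n _ h7⟩

end Pool.Agent.V5helper78.KP
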