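import Pool.Agent.V5helper78.KP.Pin

/-!
# Lower bounds for variances and the Poincaré inequality in isotropic position
-/

set_option autoImplicit false

namespace Pool.Agent.V5helper78.KP

open MeasureTheory Set Filter Topology Metric
open scoped ENNReal InnerProductSpace
open Pool.Agent.R751.MB (Eu EW VW Adm LCn AP)
open Pool.Agent.N483.KM (PS)
open Pool.Agent.V5helper78.KO (Ek adm_low int_of_adm)

theorem pt_ineq {g P R s : ℝ} (hs : 0 < s) :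
    g * (P ^ 2 - R ^ 2) ≤ s / 2 * (P - R) ^ 2 + 1 / s * (g ^ 2 * (P ^ 2 + R ^ 2)) := by
  have h1 : g * (P ^ 2 - R ^ 2) ≤ s / 2 * (P - R) ^ 2 + 1 / (2 * s) * (g ^ 2 * (P + R) ^ 2) := by
    have h2 : s / 2 * (P - R) ^ 2 + 1 / (2 * s) * (g ^ 2 * (P + R) ^ 2) - g * (P ^ 2 - R ^ 2) =
        (s * (P - R) - g * (P + R)) ^ 2 / (2 * s) := by
      field_simp
      ring
    have h3 : 0 ≤ (s * (P - R) - g * (P + R)) ^ 2 / (2 * s) := by positivity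
    linarith
  refine h1.trans ?_
  have h4 : 1 / (2 * s) * (g ^ 2 * (P + R) ^ 2) ≤ 1 / s * (g ^ 2 * (P ^ 2 + R ^ 2)) := by
    have h5 : 1 / s * (g ^ 2 * (P ^ 2 + R ^ 2)) - 1 / (2 * s) * (g ^ 2 * (P + R) ^ 2) =
        (g * (P - R)) ^ 2 / (2 * s) := by
      field_simp
      ring
    have h6 : 0 ≤ (g * (P - R)) ^ 2 / (2 * s) := by positivity
    linarith
  linarith

section

variable {κ a : ℝ} {k : ℕ} {V : Ek k → ℝ}

theorem Pn.var (h : Pn κ a V) (ha : 0 < a) (hκ : 0 < κ) (e : Ek k) :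
    1 / (2 * (κ * a)) * ‖e‖ ^ 2 ≤
      VW (fun x : Ek k => Real.exp (-V x)) (fun x => ⟪x, e⟫_ℝ) := by
  set b : ℝ := κ * a with hb
  have hb0 : 0 < b := by positivity
  have hadm := h.adm ha
  set w : Ek k → ℝ := fun x => Real.exp (-V x) with hw
  have hwp : ∀ x, 0 < w x := fun x => Real.exp_pos _
  have hi0 := int_of_adm hadm
  have hZ := hadm.pos
  have hi2 : Integrable fun x => ⟪x, e⟫_ℝ ^ 2 * w x := by
    refine Integrable.mono' (hadm.int.const_mul (‖e‖ ^ 2))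
      ((by fun_prop : Continuous fun x : Ek k => ⟪x, e⟫_ℝ ^ 2).measurable.mul
        hadm.meas).aestronglyMeasurable (Eventually.of_forall fun x => ?_)
    have h0 := hadm.nonneg x
    rw [Real.norm_of_nonneg (by positivity)]
    have h1 : ⟪x, e⟫_ℝ ^ 2 ≤ (‖x‖ * ‖e‖) ^ 2 := by
      rw [← sq_abs]
      exact pow_le_pow_left₀ (abs_nonneg _) (abs_real_inner_le_norm x e) 2
    calc ⟪x, e⟫_ℝ ^ 2 * w x ≤ (‖x‖ * ‖e‖) ^ 2 * w x := mul_le_mul_of_nonneg_right h1 h0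
      _ ≤ ‖e‖ ^ 2 * ((1 + ‖x‖ ^ 2) * w x) := by
        have : 0 ≤ ‖e‖ ^ 2 * w x := by positivity
        nlinarith
  have hi1 : Integrable fun x => ⟪x, e⟫_ℝ * w x := by
    refine Integrable.mono' (hi0.add hi2)
      ((by fun_prop : Continuous fun x : Ek k => ⟪x, e⟫_ℝ).measurable.mul
        hadm.meas).aestronglyMeasurable (Eventually.of_forall fun x => ?_)
    have h0 := hadm.nonneg x
    rw [norm_mul, Real.norm_of_nonneg h0, Real.norm_eq_abs]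
    simp only [Pi.add_apply]
    have h1 : |⟪x, e⟫_ℝ| ≤ 1 + ⟪x, e⟫_ℝ ^ 2 := by
      rw [← sq_abs]
      nlinarith [sq_nonneg (|⟪x, e⟫_ℝ| - 1), abs_nonneg ⟪x, e⟫_ℝ]
    calc |⟪x, e⟫_ℝ| * w x ≤ (1 + ⟪x, e⟫_ℝ ^ 2) * w x := mul_le_mul_of_nonneg_right h1 h0
      _ = _ := by ring
  set Z := ∫ x, w x with hZd
  set I1 := ∫ x, ⟪x, e⟫_ℝ * w x with hI1
  set I2 := ∫ x, ⟪x, e⟫_ℝ ^ 2 * w x with hI2
  set μ : ℝ := I1 / Z with hμ
  have hVW : VW w (fun x => ⟪x, e⟫_ℝ) = I2 / Z - μ ^ 2 := rfl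
  rw [hVW]
  rcases eq_or_ne e 0 with he | he
  · -- the trivial case
    have h1 : I2 = 0 := by simp [hI2, he]
    have h2 : I1 = 0 := by simp [hI1, he]
    rw [hμ, h1, h2, he]
    simp
  have hen : 0 < ‖e‖ := norm_pos_iff.2 he
  set τ : ℝ := 1 / (Real.sqrt (2 * b) * ‖e‖) with hτ
  have hs2 : 0 < Real.sqrt (2 * b) := Real.sqrt_pos.2 (by positivity)
  have hτ0 : 0 < τ := by positivity
  have hτ2 : τ ^ 2 * (2 * b * ‖e‖ ^ 2) = 1 := by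
    rw [hτ, div_pow, mul_pow, Real.sq_sqrt (by positivity)]
    field_simp
  set v : Ek k := τ • e with hv
  set c : ℝ := τ * ‖e‖ ^ 2 with hc
  have hve : ⟪v, e⟫_ℝ = c := by rw [hv, real_inner_smul_left, real_inner_self_eq_norm_sq]
  have hvn : ‖v‖ ^ 2 = τ ^ 2 * ‖e‖ ^ 2 := by
    rw [hv, norm_smul, mul_pow, Real.norm_of_nonneg hτ0.le]
  -- quadratic polynomials of ⟪x, e⟫
  have hq : ∀ α β γ : ℝ, Integrable (fun x => (α * ⟪x, e⟫_ℝ ^ 2 + β * ⟪x, e⟫_ℝ + γ) * w x) ∧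
      ∫ x, (α * ⟪x, e⟫_ℝ ^ 2 + β * ⟪x, e⟫_ℝ + γ) * w x = α * I2 + β * I1 + γ * Z := by
    intro α β γ
    have e1 : (fun x => (α * ⟪x, e⟫_ℝ ^ 2 + β * ⟪x, e⟫_ℝ + γ) * w x) = fun x =>
        (α * (⟪x, e⟫_ℝ ^ 2 * w x) + β * (⟪x, e⟫_ℝ * w x)) + γ * w x := by
      funext x; ring
    have j1 : Integrable fun x => α * (⟪x, e⟫_ℝ ^ 2 * w x) + β * (⟪x, e⟫_ℝ * w x) :=
      (hi2.const_mul α).add (hi1.const_mul β)
    rw [e1]
    refine ⟨j1.add (hi0.const_mul γ), ?_⟩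
    rw [integral_add j1 (hi0.const_mul γ), integral_add (hi2.const_mul α) (hi1.const_mul β),
      integral_const_mul, integral_const_mul, integral_const_mul]
  have hsp : ∀ α β γ : ℝ, Integrable (fun x => (α * ⟪x, e⟫_ℝ ^ 2 + β * ⟪x, e⟫_ℝ + γ) * w (x - v)) ∧
      ∫ x, (α * ⟪x, e⟫_ℝ ^ 2 + β * ⟪x, e⟫_ℝ + γ) * w (x - v) =
        α * (I2 + 2 * c * I1 + c ^ 2 * Z) + β * (I1 + c * Z) + γ * Z := by
    intro α β γ
    obtain ⟨j1, j2⟩ := hq α (2 * α * c + β) (α * c ^ 2 + β * c + γ)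
    have e1 : (fun x => (α * ⟪x, e⟫_ℝ ^ 2 + β * ⟪x, e⟫_ℝ + γ) * w (x - v)) = fun x =>
        (fun x => (α * ⟪x, e⟫_ℝ ^ 2 + (2 * α * c + β) * ⟪x, e⟫_ℝ + (α * c ^ 2 + β * c + γ)) * w x)
          (x - v) := by
      funext x
      simp only [inner_sub_left, hve]
      ring
    rw [e1]
    refine ⟨j1.comp_sub_right v, ?_⟩
    rw [integral_sub_right_eq_self (μ := volume) (fun x : Ek k =>
      (α * ⟪x, e⟫_ℝ ^ 2 + (2 * α * c + β) * ⟪x, e⟫_ℝ + (α * c ^ 2 + β * c + γ)) * w x) v, j2]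
    ring
  have hsm : ∀ α β γ : ℝ, Integrable (fun x => (α * ⟪x, e⟫_ℝ ^ 2 + β * ⟪x, e⟫_ℝ + γ) * w (x + v)) ∧
      ∫ x, (α * ⟪x, e⟫_ℝ ^ 2 + β * ⟪x, e⟫_ℝ + γ) * w (x + v) =
        α * (I2 - 2 * c * I1 + c ^ 2 * Z) + β * (I1 - c * Z) + γ * Z := by
    intro α β γ
    obtain ⟨j1, j2⟩ := hq α (-(2 * α * c) + β) (α * c ^ 2 - β * c + γ)
    have e1 : (fun x => (α * ⟪x, e⟫_ℝ ^ 2 + β * ⟪x, e⟫_ℝ + γ) * w (x + v)) = fun x =>
        (fun x => (α * ⟪x, e⟫_ℝ ^ 2 + (-(2 * α * c) + β) * ⟪x, e⟫_ℝ + (α * c ^ 2 - β * c + γ)) * w x)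
          (x + v) := by
      funext x
      simp only [inner_add_left, hve]
      ring
    rw [e1]
    refine ⟨j1.comp_add_right v, ?_⟩
    rw [integral_add_right_eq_self (μ := volume) (fun x : Ek k =>
      (α * ⟪x, e⟫_ℝ ^ 2 + (-(2 * α * c) + β) * ⟪x, e⟫_ℝ + (α * c ^ 2 - β * c + γ)) * w x) v, j2]
    ring
  set s : ℝ := 2 / (b * τ) with hs
  have hs0 : 0 < s := by positivity
  -- the pointwise inequality
  have hpt : ∀ x, (0 * ⟪x, e⟫_ℝ ^ 2 + 1 * ⟪x, e⟫_ℝ + -μ) * w (x - v) ≤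
      (0 * ⟪x, e⟫_ℝ ^ 2 + 1 * ⟪x, e⟫_ℝ + -μ) * w (x + v) +
      ((1 / s * ⟪x, e⟫_ℝ ^ 2 + -(2 * μ / s) * ⟪x, e⟫_ℝ + (μ ^ 2 / s + s / 2)) * w (x - v) +
      (1 / s * ⟪x, e⟫_ℝ ^ 2 + -(2 * μ / s) * ⟪x, e⟫_ℝ + (μ ^ 2 / s + s / 2)) * w (x + v) +
      s / 2 * (b * ‖v‖ ^ 2 - 2) * w x) := by
    intro x
    set g : ℝ := ⟪x, e⟫_ℝ - μ with hg
    have h1 := pt_ineq (g := g) (P := Real.sqrt (w (x - v))) (R := Real.sqrt (w (x + v))) hs0
    rw [Real.sq_sqrt (hwp _).le, Real.sq_sqrt (hwp _).le] at h1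
    have h2 : (Real.sqrt (w (x - v)) - Real.sqrt (w (x + v))) ^ 2 ≤
        w (x - v) + w (x + v) + (b * ‖v‖ ^ 2 - 2) * w x := by
      have e2 : (Real.sqrt (w (x - v)) - Real.sqrt (w (x + v))) ^ 2 =
          w (x - v) + w (x + v) - 2 * Real.sqrt (w (x - v) * w (x + v)) := by
        rw [Real.sqrt_mul (hwp _).le, sub_sq, Real.sq_sqrt (hwp _).le, Real.sq_sqrt (hwp _).le]
        ring
      have h3 : w x * (1 - b * ‖v‖ ^ 2 / 2) ≤ Real.sqrt (w (x - v) * w (x + v)) := by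
        have h4 : w x * Real.exp (-(b * ‖v‖ ^ 2 / 2)) ≤ Real.sqrt (w (x - v) * w (x + v)) := by
          refine Real.le_sqrt_of_sq_le ?_
          simp only [hw]
          rw [← Real.exp_add, ← Real.exp_add, ← Real.exp_nat_mul]
          refine Real.exp_le_exp.2 ?_
          have := h.mid' x v
          push_cast
          linarith
        refine le_trans (mul_le_mul_of_nonneg_left ?_ (hwp x).le) h4
        have := Real.add_one_le_exp (-(b * ‖v‖ ^ 2 / 2))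
        linarith
      rw [e2]
      linarith
    have h5 := mul_le_mul_of_nonneg_left h2 (by positivity : 0 ≤ s / 2)
    have e3 : (0 * ⟪x, e⟫_ℝ ^ 2 + 1 * ⟪x, e⟫_ℝ + -μ) = g := by rw [hg]; ring
    have e4 : (1 / s * ⟪x, e⟫_ℝ ^ 2 + -(2 * μ / s) * ⟪x, e⟫_ℝ + (μ ^ 2 / s + s / 2)) =
        1 / s * g ^ 2 + s / 2 := by rw [hg]; ring
    rw [e3, e4]
    linarith
  -- integrate
  obtain ⟨j1, k1⟩ := hsp 0 1 (-μ)
  obtain ⟨j2, k2⟩ := hsm 0 1 (-μ)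
  obtain ⟨j3, k3⟩ := hsp (1 / s) (-(2 * μ / s)) (μ ^ 2 / s + s / 2)
  obtain ⟨j4, k4⟩ := hsm (1 / s) (-(2 * μ / s)) (μ ^ 2 / s + s / 2)
  have j5 : Integrable fun x => s / 2 * (b * ‖v‖ ^ 2 - 2) * w x := hi0.const_mul _
  have j34 := j3.add j4
  have h6 := integral_mono j1 (j2.add (j34.add j5)) hpt
  rw [integral_add' j2 (j34.add j5), integral_add' j34 j5, integral_add' j3 j4, k1, k2, k3, k4,
    integral_const_mul, hvn] at h6
  have hI1Z : I1 = μ * Z := by rw [hμ]; field_simp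
  rw [hI1Z] at h6
  have h7 : 2 * c ≤ s / 2 * (b * (τ ^ 2 * ‖e‖ ^ 2)) + 2 / s * ((I2 / Z - μ ^ 2) + c ^ 2) := by
    have hI2Z : I2 = (I2 / Z) * Z := by field_simp
    rw [hI2Z] at h6
    set J := I2 / Z with hJ
    have e6 : 0 * (J * Z + 2 * c * (μ * Z) + c ^ 2 * Z) + 1 * (μ * Z + c * Z) + -μ * Z -
      (0 * (J * Z - 2 * c * (μ * Z) + c ^ 2 * Z) + 1 * (μ * Z - c * Z) + -μ * Z) = (2 * c) * Z := by
      ring
    have e7 : (1 / s * (J * Z + 2 * c * (μ * Z) + c ^ 2 * Z) + -(2 * μ / s) * (μ * Z + c * Z) +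
        (μ ^ 2 / s + s / 2) * Z) + (1 / s * (J * Z - 2 * c * (μ * Z) + c ^ 2 * Z) +
        -(2 * μ / s) * (μ * Z - c * Z) + (μ ^ 2 / s + s / 2) * Z) +
        s / 2 * (b * (τ ^ 2 * ‖e‖ ^ 2) - 2) * Z =
        (s / 2 * (b * (τ ^ 2 * ‖e‖ ^ 2)) + 2 / s * ((J - μ ^ 2) + c ^ 2)) * Z := by
      field_simp
      ring
    refine le_of_mul_le_mul_right ?_ hZ
    rw [← e6, ← e7]
    linarith
  set σ := I2 / Z - μ ^ 2 with hσ
  have e8 : s / 2 * (b * (τ ^ 2 * ‖e‖ ^ 2)) = c := by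
    rw [hs, hc]; field_simp
  have e9 : 2 / s = b * τ := by rw [hs]; field_simp
  rw [e8, e9] at h7
  have h8 : c ≤ b * τ * (σ + c ^ 2) := by linarith
  have h9 : τ * ‖e‖ ^ 2 ≤ τ * (b * (σ + c ^ 2)) := by
    rw [← hc]; linarith
  have h10 := le_of_mul_le_mul_left h9 hτ0
  have h11 : b * c ^ 2 = ‖e‖ ^ 2 / 2 := by
    have : b * c ^ 2 = (τ ^ 2 * (2 * b * ‖e‖ ^ 2)) * ‖e‖ ^ 2 / 2 := by rw [hc]; ring
    rw [this, hτ2]; ring
  rw [mul_add, h11] at h10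
  have h12 : ‖e‖ ^ 2 / 2 ≤ b * σ := by linarith
  rw [div_mul_eq_mul_div, one_mul, div_le_iff₀ (by positivity)]
  linarith

theorem Pn.ap (h : Pn κ a V) (ha : 0 < a) (hκ : 0 < κ) :
    AP (κ := Fin k) (2 * κ) fun x => Real.exp (-V x) := by
  refine Pool.Agent.N273.KM.t_CAP _ a⁻¹ (1 / (2 * (κ * a))) _ _ (by positivity)
    (by positivity) (le_of_eq ?_) (h.ps ha) (h.var ha hκ)
  field_simp

end

end Pool.Agent.V5helper78.KP
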