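import Pool.Agent.V5helper78.KP.Crb
import Pool.Agent.V5helper78.KO.Pbi

/-!
# Sums of functions with pinched Hessians: level sets
-/

set_option autoImplicit false

namespace Pool.Agent.V5helper78.KP

open MeasureTheory Set Filter Topology Metric
open scoped ENNReal InnerProductSpace
open Pool.Agent.R754.KG (E un)
open Pool.Agent.Y506.PV (CcW ind)
open Pool.Agent.Y506.RG (Star)
open Pool.Agent.R751.MB (AP)
open Pool.Agent.R755.KS (km_profile)
open Pool.Agent.N483.KM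

theorem Pn.mono {κ κ' a : ℝ} {k : ℕ} {V : E k → ℝ} (h : Pn κ a V) (hκ : κ ≤ κ') : Pn κ' a V := by
  refine ⟨h.nn, h.lo, ?_⟩
  have h1 := h.up.add ((sq_conv k).smul
    (mul_nonneg (sub_nonneg.2 hκ) (by linarith [h.nn] : 0 ≤ a / 2)))
  refine h1.congr fun x _ => ?_
  simp only [Pi.add_apply, smul_eq_mul]
  ring

theorem Pn.add_lin {κ a : ℝ} {k : ℕ} {V : E k → ℝ} (h : Pn κ a V) (ℓ : E k →ₗ[ℝ] ℝ) (c : ℝ) :
    Pn κ a fun x => V x + ℓ x + c := by
  refine ⟨h.nn, ?_, ?_⟩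
  · have h1 := (h.lo.add (ℓ.convexOn convex_univ)).add_const c
    refine h1.congr fun x _ => ?_
    simp only [Pi.add_apply]
    ring
  · have h1 := (h.up.add ((-ℓ).convexOn convex_univ)).add_const (-c)
    refine h1.congr fun x _ => ?_
    simp only [Pi.add_apply, LinearMap.neg_apply]
    ring

/-- the representation of the bodies -/
structure Rp (κ : ℝ) (r q : ℕ) {n : ℕ} (K : Set (E n)) : Prop where
  rep : ∃ (B : ℕ) (k : Fin B → ℕ) (L : (E n × E q) ≃ₗ[ℝ] (∀ i, E (k i)))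
    (V : Fin r → ∀ i, E (k i) → ℝ) (a : Fin r → Fin B → ℝ) (e : Fin r → ℝ),
    (∀ j i, Pn κ (a j i) (V j i)) ∧ (∀ j i, ∃ c : ℝ, ∀ x, c ≤ V j i x) ∧ (∀ i, ∃ j, 0 < a j i) ∧
    (∃ x : E n, ∀ j, ∑ i, V j i (L (x, 0) i) < e j) ∧
    K = {x | ∀ j, ∑ i, V j i (L (x, 0) i) ≤ e j}

theorem lin_split {B : ℕ} {k : Fin B → ℕ} (ℓ : (∀ i, E (k i)) →ₗ[ℝ] ℝ) (y : ∀ i, E (k i)) :
    ℓ y = ∑ i, (ℓ.comp (LinearMap.single ℝ (fun i => E (k i)) i)) (y i) := by
  classical
  simp only [LinearMap.comp_apply]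
  rw [← map_sum]
  congr 1
  exact (LinearMap.sum_single_apply (fun i => E (k i)) y).symm

theorem pin_cc (κ : ℝ) (r q : ℕ) (δ : ℝ) (hδ : 0 < δ) : ∃ κ' : ℝ, 0 < κ' ∧ ∀ (n : ℕ) (K : Set (E n)),
    Rp κ r q K → IsCompact K ∧ Convex ℝ K ∧ (interior K).Nonempty ∧ CcW κ' δ (ind K) := by
  set κ₁ : ℝ := max κ 1 with hκ₁
  have hκ1 : 0 < κ₁ := lt_max_of_lt_right one_pos
  obtain ⟨δ', hδ', h3⟩ := gibR r q δ hδ
  obtain ⟨κ', hκ', h4⟩ := Pool.Agent.R751.MB.apc (2 * κ₁) δ' (by positivity) hδ'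
  obtain ⟨κ₂, hκ₂, h5⟩ := h3 κ' hκ'
  refine ⟨κ₂, hκ₂, ?_⟩
  rintro n K ⟨B, k, L, V, a, e, hV, hbd, ha, hx, rfl⟩
  choose c hc using hbd
  obtain ⟨N, hN⟩ : ∃ N : ℕ, N = n + q := ⟨_, rfl⟩
  have hfin : Module.finrank ℝ (E n × E q) = Module.finrank ℝ (E N) := by
    rw [Module.finrank_prod, hN]
    simp
  let ψ : (E n × E q) ≃ₗ[ℝ] E N := LinearEquiv.ofFinrankEq _ _ hfin
  -- the functions on the large space
  let U : Fin r → ∀ i, E (k i) → ℝ := fun j i x => V j i x - c j i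
  let S : Fin r → E N → ℝ := fun j z => ∑ i, U j i (L (ψ.symm z) i)
  let e' : Fin r → ℝ := fun j => e j - ∑ i, c j i
  have hU0 : ∀ j i x, 0 ≤ U j i x := fun j i x => sub_nonneg.2 (hc j i x)
  have hUP : ∀ j i, Pn κ₁ (a j i) (U j i) := fun j i => by
    have h := ((hV j i).mono (le_max_left κ 1)).add_lin 0 (-c j i)
    have e1 : (fun x => V j i x + (0 : E (k i) →ₗ[ℝ] ℝ) x + -c j i) = U j i := by
      funext x
      simp only [U, LinearMap.zero_apply]
      ring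
    rwa [e1] at h
  have hSψ : ∀ (x : E n) j, S j (ψ (x, 0)) = (∑ i, V j i (L (x, 0) i)) - ∑ i, c j i := by
    intro x j
    simp only [S, U, LinearEquiv.symm_apply_apply, Finset.sum_sub_distrib]
  have hKe : {x : E n | ∀ j, ∑ i, V j i (L (x, 0) i) ≤ e j} =
      {x : E n | ∀ j, S j (ψ (x, 0)) ≤ e' j} := by
    ext x
    simp only [mem_ofPred_eq, hSψ, e', sub_le_sub_iff_right]
  have hSconv : ∀ j, ConvexOn ℝ univ (S j) := by
    intro j
    have h1 := Pool.Agent.N624.KM.conv_sum (ψ.symm.trans L).symm (fun j i x => U j i x)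
      (fun j i => (hUP j i).conv)
    exact h1 j
  have hS0 : ∀ j z, 0 ≤ S j z := fun j z => Finset.sum_nonneg fun i _ => hU0 j i _
  have hSc : ∀ j, Continuous (S j) := fun j =>
    continuousOn_univ.1 ((hSconv j).continuousOn isOpen_univ)
  have hψc : Continuous ψ := ψ.toLinearMap.continuous_of_finiteDimensional
  have hin : Continuous fun x : E n => ψ (x, 0) := hψc.comp (by fun_prop)
  -- boundedness of the sublevel sets
  have hSb : ∀ s : Fin r → ℝ, Bornology.IsBounded {z : E N | ∀ j, S j z ≤ s j} := by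
    intro s
    choose j0 hj0 using ha
    choose C hC using fun i => (hUP (j0 i) i).grow (hj0 i)
    let e1 : (∀ i, E (k i)) →L[ℝ] E N :=
      LinearMap.toContinuousLinearMap (ψ.symm.trans L).symm.toLinearMap
    set Q : ℝ := ∑ i, max 0 (s (j0 i) + C i) with hQ
    have hQi : ∀ i, 0 ≤ max 0 (s (j0 i) + C i) := fun i => le_max_left _ _
    have hQ0 : 0 ≤ Q := Finset.sum_nonneg fun i _ => hQi i
    have hb : Bornology.IsBounded (Metric.closedBall (0 : ∀ i, E (k i)) Q) :=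
      Metric.isBounded_closedBall
    refine (e1.lipschitz.isBounded_image hb).subset ?_
    intro z hz
    refine ⟨L (ψ.symm z), ?_, ?_⟩
    · rw [mem_closedBall_zero_iff, pi_norm_le_iff_of_nonneg hQ0]
      intro i
      have h1 : U (j0 i) i (L (ψ.symm z) i) ≤ s (j0 i) :=
        (Finset.single_le_sum (f := fun i' => U (j0 i) i' (L (ψ.symm z) i'))
          (fun i' _ => hU0 (j0 i) i' _) (Finset.mem_univ i)).trans (hz (j0 i))
      have h2 := hC i (L (ψ.symm z) i)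
      have h6 : ‖L (ψ.symm z) i‖ ≤ max 0 (s (j0 i) + C i) :=
        le_trans (by linarith) (le_max_right _ _)
      exact h6.trans (Finset.single_le_sum (f := fun i => max 0 (s (j0 i) + C i))
        (fun i _ => hQi i) (Finset.mem_univ i))
    · change (ψ.symm.trans L).symm (L (ψ.symm z)) = z
      exact (ψ.symm.trans L).symm_apply_apply z
  have hx' : ∃ x : E n, ∀ j, S j (ψ (x, 0)) < e' j := by
    obtain ⟨x, hx⟩ := hx
    refine ⟨x, fun j => ?_⟩
    rw [hSψ]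
    exact sub_lt_sub_right (hx j) _
  rw [hKe]
  have hcl : IsClosed {x : E n | ∀ j, S j (ψ (x, 0)) ≤ e' j} := by
    have e1 : {x : E n | ∀ j, S j (ψ (x, 0)) ≤ e' j} = ⋂ j, {x : E n | S j (ψ (x, 0)) ≤ e' j} := by
      ext x
      simp
    rw [e1]
    exact isClosed_iInter fun j => isClosed_le ((hSc j).comp hin) continuous_const
  have hb : Bornology.IsBounded {x : E n | ∀ j, S j (ψ (x, 0)) ≤ e' j} := by
    have hb1 := hSb e'
    have hψs := ψ.symm.toContinuousLinearEquiv.toContinuousLinearMap.lipschitz.isBounded_image hb1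
    have hb2 := (ContinuousLinearMap.fst ℝ (E n) (E q)).lipschitz.isBounded_image hψs
    refine hb2.subset fun x hx => ?_
    refine ⟨(x, 0), ⟨ψ (x, 0), hx, ?_⟩, rfl⟩
    exact ψ.symm_apply_apply _
  have hcomp : IsCompact {x : E n | ∀ j, S j (ψ (x, 0)) ≤ e' j} :=
    Metric.isCompact_of_isClosed_isBounded hcl hb
  have hconv : Convex ℝ {x : E n | ∀ j, S j (ψ (x, 0)) ≤ e' j} := by
    intro x hx y hy s t hs ht hst j
    have e1 : ψ (s • x + t • y, 0) = s • ψ (x, 0) + t • ψ (y, 0) := by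
      rw [← map_smul, ← map_smul, ← map_add]
      simp
    rw [e1]
    refine ((hSconv j).2 (mem_univ _) (mem_univ _) hs ht hst).trans ?_
    calc s • S j (ψ (x, 0)) + t • S j (ψ (y, 0)) ≤ s * e' j + t * e' j :=
          add_le_add (mul_le_mul_of_nonneg_left (hx j) hs) (mul_le_mul_of_nonneg_left (hy j) ht)
      _ = e' j := by rw [← add_mul, hst, one_mul]
  have hint : (interior {x : E n | ∀ j, S j (ψ (x, 0)) ≤ e' j}).Nonempty := by
    obtain ⟨x, hx⟩ := hx'
    refine ⟨x, mem_interior.2 ⟨{x : E n | ∀ j, S j (ψ (x, 0)) < e' j},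
      fun y hy j => (hy j).le, ?_, hx⟩⟩
    have e1 : {x : E n | ∀ j, S j (ψ (x, 0)) < e' j} = ⋂ j, {x : E n | S j (ψ (x, 0)) < e' j} := by
      ext x
      simp
    rw [e1]
    exact isOpen_iInter_of_finite fun j => isOpen_lt ((hSc j).comp hin) continuous_const
  refine ⟨hcomp, hconv, hint, ?_⟩
  rcases Nat.eq_zero_or_pos n with rfl | hn
  · exact Pool.Agent.R754.KG.cc_zero hδ.le _ hcomp hint
  refine h5 n N ψ S e' hn hSconv hS0 hSb hx' fun l t hl => ?_
  -- the Gibbs weights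
  let ℓ : (∀ i, E (k i)) →ₗ[ℝ] ℝ :=
    (innerₗ (E q) t).comp ((LinearMap.snd ℝ (E n) (E q)).comp L.symm.toLinearMap)
  let Φ : ∀ i, E (k i) → ℝ := fun i x => (∑ j, l j * U j i x) +
    (ℓ.comp (LinearMap.single ℝ (fun i => E (k i)) i)) x + 0
  have hAP : ∀ i, AP (κ := Fin (k i)) (2 * κ₁) fun x => Real.exp (-Φ i x) := by
    intro i
    have h1 := (pn_sum hl fun j => hUP j i).add_lin
      (ℓ.comp (LinearMap.single ℝ (fun i => E (k i)) i)) 0
    refine h1.ap ?_ hκ1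
    obtain ⟨j, hj⟩ := ha i
    exact lt_of_lt_of_le (mul_pos (hl j) hj) (Finset.single_le_sum
      (f := fun j => l j * a j i) (fun j _ => mul_nonneg (hl j).le (hUP j i).nn)
      (Finset.mem_univ j))
  have h := Pool.Agent.R751.MB.ap_pi Pool.Agent.R751.MB.ten (A := 2 * κ₁) (by positivity) B k N
    (ψ.symm.trans L).symm (fun i x => Real.exp (-Φ i x)) hAP
  have hgw : gw ψ S l t = fun z => ∏ i, Real.exp (-Φ i ((ψ.symm.trans L).symm.symm z i)) := by
    funext z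
    rw [← Real.exp_sum, Finset.sum_neg_distrib]
    unfold gw
    have e2 : ∀ i, Φ i ((ψ.symm.trans L).symm.symm z i) = (∑ j, l j * U j i (L (ψ.symm z) i)) +
        (ℓ.comp (LinearMap.single ℝ (fun i => E (k i)) i)) (L (ψ.symm z) i) := fun i => by
      simp only [Φ, add_zero]
      rfl
    simp only [e2]
    rw [Finset.sum_add_distrib, ← lin_split ℓ (L (ψ.symm z)), Finset.sum_comm]
    congr 3
    · refine Finset.sum_congr rfl fun j _ => ?_
      rw [Finset.mul_sum]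
    · simp only [ℓ, LinearMap.comp_apply, LinearEquiv.coe_coe, LinearEquiv.symm_apply_apply,
        LinearMap.snd_apply, innerₗ_apply_apply]
  rw [hgw]
  exact ⟨⟨h.adm.nonneg, h.adm.int, h.adm.pos, h.adm.meas⟩, h4 N _ h⟩

theorem pin_star (κ : ℝ) (r q p : ℕ) : ∃ c : ℝ, 0 < c ∧ ∀ (m n : ℕ) (K : Set (E m))
    (T : E m →ₗ[ℝ] E n) (w : E n), Rp κ r q K → m ≤ n + p → Function.Surjective T →
    IsCompact ((fun x => w + T x) '' K) ∧ Convex ℝ ((fun x => w + T x) '' K) ∧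
    (interior ((fun x => w + T x) '' K)).Nonempty ∧ Star c (ind ((fun x => w + T x) '' K)) := by
  obtain ⟨A', -, H⟩ := km_profile (P := fun m K => Rp κ r q K) fun δ hδ => by
    obtain ⟨κ', hκ', H⟩ := pin_cc κ r q δ hδ
    exact ⟨κ', hκ', fun m K hK => H m K hK⟩
  obtain ⟨c, hc, Hc⟩ := cyR cclR A' 1 1 one_pos one_pos 0 p 1
  refine ⟨c, hc, fun m n K T w hK hm hT => ?_⟩
  obtain ⟨a1, a2, a3, a4⟩ := H m K hK
  exact Hc _ _ (.image _ _ _ _ T w hm hT (.base _ _ a1 a2 a3 a4))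

end Pool.Agent.V5helper78.KP
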