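import Pool.Agent.V5helper78.KP.Qd

/-!
# Level sets of functions pinched by quadratic forms
-/

set_option autoImplicit false

namespace Pool.Agent.V5helper78.KP

open MeasureTheory Set Filter Topology Metric
open scoped ENNReal InnerProductSpace
open Pool.Agent.R754.KG (E un)
open Pool.Agent.Y506.PV (CcW ind)
open Pool.Agent.Y506.RG (Star)
open Pool.Agent.R755.KS (km_profile)
open Pool.Agent.N483.KM

/-- the bodies -/
structure Rq (κ : ℝ) (r : ℕ) {n : ℕ} (K : Set (E n)) : Prop where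
  bdd : Bornology.IsBounded K
  int : (interior K).Nonempty
  rep : ∃ (Q : Fin r → QuadraticForm ℝ (E n)) (S : Fin r → E n → ℝ) (e : Fin r → ℝ),
    (∀ j, Pq κ (Q j) (S j)) ∧ K = {x | ∀ j, S j x ≤ e j}

/-- the square of the norm -/
noncomputable def nsq (n : ℕ) : QuadraticForm ℝ (E n) :=
  LinearMap.BilinMap.toQuadraticMap (innerₗ (E n))

theorem nsq_apply {n : ℕ} (x : E n) : nsq n x = ‖x‖ ^ 2 := by
  unfold nsq
  rw [LinearMap.BilinMap.toQuadraticMap_apply, innerₗ_apply_apply, real_inner_self_eq_norm_sq]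

theorem pq_nsq {κ : ℝ} (hκ : 1 ≤ κ) (n : ℕ) : Pq κ (nsq n) fun x => ‖x‖ ^ 2 / 2 := by
  refine ⟨fun x => by rw [nsq_apply]; positivity, ?_, ?_⟩
  · refine (convexOn_const (0 : ℝ) (convex_univ (𝕜 := ℝ) (E := E n))).congr fun x _ => ?_
    rw [nsq_apply, sub_self]
  · refine ((sq_conv n).smul (by linarith : 0 ≤ (κ - 1) / 2)).congr fun x _ => ?_
    simp only [nsq_apply, smul_eq_mul]
    ring

theorem pq_add {κ η : ℝ} (hκ : 1 ≤ κ) (hη : 0 ≤ η) {n : ℕ} {Q : QuadraticForm ℝ (E n)}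
    {S : E n → ℝ} (h : Pq κ Q S) : Pq κ (Q + η • nsq n) fun x => S x + η / 2 * ‖x‖ ^ 2 := by
  have hv : ∀ x, (Q + η • nsq n) x = Q x + η * ‖x‖ ^ 2 := fun x => by
    rw [← nsq_apply]
    rfl
  refine ⟨fun x => ?_, ?_, ?_⟩
  · rw [hv]
    have := h.nn x
    positivity
  · refine h.lo.congr fun x _ => ?_
    simp only [hv]
    ring
  · refine (h.up.add ((sq_conv n).smul
      (by nlinarith : 0 ≤ (κ - 1) * η / 2))).congr fun x _ => ?_
    simp only [hv, Pi.add_apply, smul_eq_mul]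
    ring

theorem pq_mono {κ κ' : ℝ} {n : ℕ} {Q : QuadraticForm ℝ (E n)}
    {S : E n → ℝ} (h : Pq κ Q S) (hκ : κ ≤ κ') : Pq κ' Q S := by
  refine ⟨h.nn, h.lo, (h.up.add ((qsq_conv Q h.nn).smul
      (by linarith : 0 ≤ (κ' - κ) / 2))).congr fun x _ => ?_⟩
  simp only [Pi.add_apply, smul_eq_mul]
  ring

theorem quad_all (κ : ℝ) (r : ℕ) (δ : ℝ) (hδ : 0 < δ) : ∃ κ' : ℝ, 0 < κ' ∧ ∀ (n : ℕ)
    (K : Set (E n)), Rq κ r K → IsCompact K ∧ Convex ℝ K ∧ (interior K).Nonempty ∧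
    CcW κ' δ (ind K) := by
  have hκ1 : 1 ≤ max κ 1 := le_max_right _ _
  obtain ⟨κ', hκ', H⟩ := quad_cc (max κ 1) (r + 1) δ hδ
  refine ⟨κ' / 2, by positivity, ?_⟩
  intro n K hK
  obtain ⟨Q, S, e, hP, hKe⟩ := hK.rep
  have hSc : ∀ j, Continuous (S j) := fun j =>
    continuousOn_univ.1 ((hP j).conv.continuousOn isOpen_univ)
  have hcl : IsClosed K := by
    have e1 : K = ⋂ j, {x : E n | S j x ≤ e j} := by
      rw [hKe]
      ext x
      simp
    rw [e1]
    exact isClosed_iInter fun j => isClosed_le (hSc j) continuous_const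
  have hcomp : IsCompact K := Metric.isCompact_of_isClosed_isBounded hcl hK.bdd
  have hconv : Convex ℝ K := by
    rw [hKe]
    intro x hx y hy s t hs ht hst j
    refine ((hP j).conv.2 (mem_univ _) (mem_univ _) hs ht hst).trans ?_
    calc s • S j x + t • S j y ≤ s * e j + t * e j :=
          add_le_add (mul_le_mul_of_nonneg_left (hx j) hs) (mul_le_mul_of_nonneg_left (hy j) ht)
      _ = e j := by rw [← add_mul, hst, one_mul]
  refine ⟨hcomp, hconv, hK.int, ?_⟩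
  rcases Nat.eq_zero_or_pos n with rfl | hn
  · exact Pool.Agent.R754.KG.cc_zero hδ.le _ hcomp hK.int
  obtain ⟨x0, hx0⟩ := hK.int
  have hx0' : x0 ∈ K := interior_subset hx0
  obtain ⟨R, hR⟩ : ∃ R : ℝ, ∀ x ∈ K, ‖x‖ < R := by
    obtain ⟨R, hR⟩ := hK.bdd.exists_norm_le
    exact ⟨R + 1, fun x hx => lt_of_le_of_lt (hR x hx) (lt_add_one R)⟩
  have hR0 : 0 < R := (norm_nonneg _).trans_lt (hR x0 hx0')
  let η : ℕ → ℝ := fun M => 1 / ((M : ℝ) + 1)
  have hη0 : ∀ M, 0 < η M := fun M => by positivity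
  let Q' : ℕ → Fin (r + 1) → QuadraticForm ℝ (E n) := fun M =>
    Fin.cons (nsq n) fun j => Q j + η M • nsq n
  let S' : ℕ → Fin (r + 1) → E n → ℝ := fun M =>
    Fin.cons (fun x => ‖x‖ ^ 2 / 2) fun j x => S j x + η M / 2 * ‖x‖ ^ 2
  let e' : ℕ → Fin (r + 1) → ℝ := fun M => Fin.cons (R ^ 2 / 2) fun j => e j + η M / 2 * R ^ 2
  obtain ⟨Km, hKm⟩ : ∃ Km : ℕ → Set (E n), Km = fun M => {x : E n | ∀ j, S' M j x ≤ e' M j} :=
    ⟨_, rfl⟩
  have hmem : ∀ M x, x ∈ Km M ↔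
      ‖x‖ ^ 2 ≤ R ^ 2 ∧ ∀ j, S j x + η M / 2 * ‖x‖ ^ 2 ≤ e j + η M / 2 * R ^ 2 := by
    intro M x
    rw [hKm]
    change (∀ j, S' M j x ≤ e' M j) ↔ _
    rw [Fin.forall_fin_succ]
    simp only [S', e', Fin.cons_zero, Fin.cons_succ]
    constructor
    · rintro ⟨h1, h2⟩
      exact ⟨by linarith, h2⟩
    · rintro ⟨h1, h2⟩
      exact ⟨by linarith, h2⟩
  have hcap : K = ⋂ M, Km M := by
    ext x
    rw [mem_iInter]
    constructor
    · intro hx M
      have h1 : ‖x‖ ^ 2 ≤ R ^ 2 := pow_le_pow_left₀ (norm_nonneg _) (hR x hx).le 2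
      rw [hmem]
      refine ⟨h1, fun j => ?_⟩
      rw [hKe] at hx
      exact add_le_add (hx j) (mul_le_mul_of_nonneg_left h1 (by have := hη0 M; positivity))
    · intro hx
      rw [hKe]
      intro j
      have h1 : Tendsto (fun M : ℕ => e j + η M / 2 * (R ^ 2 - ‖x‖ ^ 2)) atTop
          (𝓝 (e j + 0 / 2 * (R ^ 2 - ‖x‖ ^ 2))) :=
        tendsto_const_nhds.add
          ((tendsto_one_div_add_atTop_nhds_zero_nat.div_const 2).mul_const _)
      rw [zero_div, zero_mul, add_zero] at h1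
      refine ge_of_tendsto' h1 fun M => ?_
      have h2 := ((hmem M x).1 (hx M)).2 j
      linarith
  have hcl' : ∀ M, IsClosed (Km M) := by
    intro M
    have e1 : Km M = {x : E n | ‖x‖ ^ 2 ≤ R ^ 2} ∩
        ⋂ j, {x : E n | S j x + η M / 2 * ‖x‖ ^ 2 ≤ e j + η M / 2 * R ^ 2} := by
      ext x
      rw [hmem]
      simp
    rw [e1]
    refine (isClosed_le (by fun_prop) continuous_const).inter (isClosed_iInter fun j =>
      isClosed_le ?_ continuous_const)
    have := hSc j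
    fun_prop
  have hbd : ∀ M, Bornology.IsBounded (Km M) := by
    intro M
    refine (Metric.isBounded_closedBall (x := (0 : E n)) (r := R)).subset fun x hx => ?_
    rw [mem_closedBall_zero_iff]
    exact abs_le_of_sq_le_sq' ((hmem M x).1 hx).1 hR0.le |>.2
  have hanti : Antitone Km := by
    refine antitone_nat_of_succ_le fun M x hx => ?_
    rw [hmem] at hx ⊢
    refine ⟨hx.1, fun j => ?_⟩
    have h1 := hx.2 j
    have h2 : η (M + 1) ≤ η M := by
      refine one_div_le_one_div_of_le (by positivity) ?_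
      push_cast
      linarith
    nlinarith [hx.1]
  refine Pool.Agent.N456.KM.PRXx.lim_cc hκ' hcap hcl' hbd hanti hx0 fun M => ?_
  rw [hKm]
  refine H n (Q' M) (S' M) (e' M) hn (by omega) (fun j => ?_) (fun j x hx => ?_) ⟨x0, fun j => ?_⟩
  · refine Fin.cases ?_ (fun j => ?_) j
    · exact pq_nsq hκ1 n
    · exact pq_add hκ1 (hη0 M).le (pq_mono (hP j) (le_max_left _ _))
  · have hx2 : 0 < ‖x‖ ^ 2 := by
      have := norm_pos_iff.2 hx
      positivity
    refine Fin.cases ?_ (fun j => ?_) j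
    · change 0 < nsq n x
      rw [nsq_apply]
      exact hx2
    · change 0 < (Q j + η M • nsq n) x
      have e2 : (Q j + η M • nsq n) x = Q j x + η M * ‖x‖ ^ 2 := by
        rw [← nsq_apply]
        rfl
      rw [e2]
      have h1 := (hP j).nn x
      have h2 := hη0 M
      positivity
  · have h3 : ‖x0‖ ^ 2 < R ^ 2 :=
      pow_lt_pow_left₀ (hR x0 hx0') (norm_nonneg _) two_ne_zero
    refine Fin.cases ?_ (fun j => ?_) j
    · change ‖x0‖ ^ 2 / 2 < R ^ 2 / 2
      linarith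
    · change S j x0 + η M / 2 * ‖x0‖ ^ 2 < e j + η M / 2 * R ^ 2
      have h4 : S j x0 ≤ e j := by
        rw [hKe] at hx0'
        exact hx0' j
      have h5 : η M / 2 * ‖x0‖ ^ 2 < η M / 2 * R ^ 2 :=
        mul_lt_mul_of_pos_left h3 (by have := hη0 M; positivity)
      linarith

theorem quad_star (κ : ℝ) (r p : ℕ) : ∃ c : ℝ, 0 < c ∧ ∀ (m n : ℕ) (K : Set (E m))
    (T : E m →ₗ[ℝ] E n) (w : E n), Rq κ r K → m ≤ n + p → Function.Surjective T →
    IsCompact ((fun x => w + T x) '' K) ∧ Convex ℝ ((fun x => w + T x) '' K) ∧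
    (interior ((fun x => w + T x) '' K)).Nonempty ∧ Star c (ind ((fun x => w + T x) '' K)) := by
  obtain ⟨A', -, H⟩ := km_profile (P := fun m K => Rq κ r K) fun δ hδ => by
    obtain ⟨κ', hκ', H⟩ := quad_all κ r δ hδ
    exact ⟨κ', hκ', fun m K hK => H m K hK⟩
  obtain ⟨c, hc, Hc⟩ := cyR cclR A' 1 1 one_pos one_pos 0 p 1
  refine ⟨c, hc, fun m n K T w hK hm hT => ?_⟩
  obtain ⟨a1, a2, a3, a4⟩ := H m K hK
  exact Hc _ _ (.image _ _ _ _ T w hm hT (.base _ _ a1 a2 a3 a4))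

end Pool.Agent.V5helper78.KP
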