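import Pool.Agent.V5helper78.KO.Apw
import Pool.Agent.H212R2.KLS.R4
import Pool.Agent.N273.KM.CPA

/-!
# Functions whose Hessians lie between `a` and `κ a`
-/

set_option autoImplicit false

namespace Pool.Agent.V5helper78.KP

open MeasureTheory Set Filter Topology Metric
open scoped ENNReal InnerProductSpace
open Pool.Agent.R751.MB (Eu EW VW Adm LCn AP)
open Pool.Agent.N483.KM (PS)
open Pool.Agent.V5helper78.KO (Ek adm_low int_of_adm)

/-- `a ≤ Hess V ≤ κ a` -/
structure Pn (κ a : ℝ) {k : ℕ} (V : Ek k → ℝ) : Prop where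
  nn : 0 ≤ a
  lo : ConvexOn ℝ univ fun x => V x - a / 2 * ‖x‖ ^ 2
  up : ConvexOn ℝ univ fun x => κ * a / 2 * ‖x‖ ^ 2 - V x

section

variable {κ a : ℝ} {k : ℕ} {V : Ek k → ℝ}

theorem sq_conv (k : ℕ) : ConvexOn ℝ univ fun x : Ek k => ‖x‖ ^ 2 :=
  (convexOn_univ_norm).pow (fun x _ => norm_nonneg x) 2

theorem Pn.conv (h : Pn κ a V) : ConvexOn ℝ univ V := by
  have h1 := h.lo.add ((sq_conv k).smul (by linarith [h.nn] : 0 ≤ a / 2))
  refine h1.congr fun x _ => ?_
  simp only [Pi.add_apply, smul_eq_mul]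
  ring

theorem Pn.cont (h : Pn κ a V) : Continuous V :=
  continuousOn_univ.1 (h.conv.continuousOn isOpen_univ)

theorem conv_sum {ι : Type} (s : Finset ι) {f : ι → Ek k → ℝ} (h : ∀ i ∈ s, ConvexOn ℝ univ (f i)) :
    ConvexOn ℝ univ fun x => ∑ i ∈ s, f i x := by
  classical
  induction s using Finset.induction_on with
  | empty => simpa using convexOn_const (0 : ℝ) (convex_univ (𝕜 := ℝ) (E := Ek k))
  | insert i s hi ih =>
    have h1 := (h i (Finset.mem_insert_self i s)).add
      (ih fun j hj => h j (Finset.mem_insert_of_mem hj))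
    refine h1.congr fun x _ => ?_
    rw [Finset.sum_insert hi]
    rfl

theorem pn_sum {r : ℕ} {l b : Fin r → ℝ} {U : Fin r → Ek k → ℝ} (hl : ∀ j, 0 < l j)
    (h : ∀ j, Pn κ (b j) (U j)) : Pn κ (∑ j, l j * b j) fun x => ∑ j, l j * U j x := by
  refine ⟨Finset.sum_nonneg fun j _ => mul_nonneg (hl j).le (h j).nn, ?_, ?_⟩
  · have h1 := conv_sum (k := k) Finset.univ
      (f := fun j x => l j • (U j x - b j / 2 * ‖x‖ ^ 2)) fun j _ => (h j).lo.smul (hl j).le
    refine h1.congr fun x _ => ?_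
    simp only [smul_eq_mul, mul_sub, Finset.sum_sub_distrib, Finset.sum_div, Finset.sum_mul]
    congr 1
    refine Finset.sum_congr rfl fun j _ => ?_
    ring
  · have h1 := conv_sum (k := k) Finset.univ
      (f := fun j x => l j • (κ * b j / 2 * ‖x‖ ^ 2 - U j x)) fun j _ => (h j).up.smul (hl j).le
    refine h1.congr fun x _ => ?_
    simp only [smul_eq_mul, mul_sub, Finset.sum_sub_distrib, Finset.sum_div, Finset.sum_mul,
      Finset.mul_sum]
    congr 1
    refine Finset.sum_congr rfl fun j _ => ?_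
    ring

theorem par (x y : Ek k) : ‖(1 / 2 : ℝ) • (x + y)‖ ^ 2 + ‖x - y‖ ^ 2 / 4 =
    (‖x‖ ^ 2 + ‖y‖ ^ 2) / 2 := by
  have h1 := parallelogram_law_with_norm ℝ x y
  rw [norm_smul, Real.norm_of_nonneg (by norm_num)]
  nlinarith

theorem Pn.mid (h : Pn κ a V) (x y : Ek k) :
    2 * V ((1 / 2 : ℝ) • (x + y)) + a / 4 * ‖x - y‖ ^ 2 ≤ V x + V y := by
  have h1 := h.lo.2 (mem_univ x) (mem_univ y) (by norm_num : (0 : ℝ) ≤ 1 / 2)
    (by norm_num : (0 : ℝ) ≤ 1 / 2) (by norm_num)
  simp only [smul_eq_mul] at h1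
  rw [← smul_add] at h1
  have h2 := par x y
  have h3 : a / 2 * (‖(1 / 2 : ℝ) • (x + y)‖ ^ 2 + ‖x - y‖ ^ 2 / 4) =
    a / 2 * ((‖x‖ ^ 2 + ‖y‖ ^ 2) / 2) := by rw [h2]
  linarith

theorem Pn.mid' (h : Pn κ a V) (x v : Ek k) :
    V (x + v) + V (x - v) ≤ 2 * V x + κ * a * ‖v‖ ^ 2 := by
  have h1 := h.up.2 (mem_univ (x + v)) (mem_univ (x - v)) (by norm_num : (0 : ℝ) ≤ 1 / 2)
    (by norm_num : (0 : ℝ) ≤ 1 / 2) (by norm_num)
  simp only [smul_eq_mul] at h1
  have e1 : (1 / 2 : ℝ) • (x + v) + (1 / 2 : ℝ) • (x - v) = x := by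
    rw [← smul_add, add_add_sub_cancel, ← two_smul ℝ x, smul_smul]
    norm_num
  rw [e1] at h1
  have h2 := parallelogram_law_with_norm ℝ x v
  have h3 : κ * a / 2 * (‖x + v‖ ^ 2 + ‖x - v‖ ^ 2) =
    κ * a / 2 * (2 * (‖x‖ ^ 2 + ‖v‖ ^ 2)) := by rw [h2]
  linarith

theorem Pn.grow (h : Pn κ a V) (ha : 0 < a) : ∃ C : ℝ, ∀ x, ‖x‖ - C ≤ V x := by
  set f : Ek k → ℝ := fun x => V x - a / 2 * ‖x‖ ^ 2 with hf
  have hfc : Continuous f := continuousOn_univ.1 (h.lo.continuousOn isOpen_univ)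
  obtain ⟨M, hM⟩ := (isCompact_closedBall (0 : Ek k) 1).exists_bound_of_continuousOn
    hfc.continuousOn
  have hM0 : 0 ≤ M := (norm_nonneg _).trans (hM 0 (by simp))
  have h1 : ∀ x, -((1 + 2 * ‖x‖) * M) ≤ f x := by
    intro x
    rcases le_total ‖x‖ 1 with hx | hx
    · have h2 := hM x (by simpa using hx)
      rw [Real.norm_eq_abs, abs_le] at h2
      nlinarith [norm_nonneg x, mul_nonneg (norm_nonneg x) hM0]
    · set t := ‖x‖ with ht
      have ht0 : 0 < t := by linarith
      have h2 := h.lo.2 (mem_univ x) (mem_univ (-(t⁻¹ • x)))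
        (by positivity : (0 : ℝ) ≤ 1 / (1 + t)) (by positivity : (0 : ℝ) ≤ t / (1 + t))
        (by field_simp)
      have e1 : (1 / (1 + t)) • x + (t / (1 + t)) • -(t⁻¹ • x) = 0 := by
        rw [smul_neg, smul_smul, ← sub_eq_add_neg, ← sub_smul]
        have : 1 / (1 + t) - t / (1 + t) * t⁻¹ = 0 := by field_simp; ring
        rw [this, zero_smul]
      rw [e1] at h2
      simp only [smul_eq_mul] at h2
      change f 0 ≤ 1 / (1 + t) * f x + t / (1 + t) * f (-(t⁻¹ • x)) at h2
      have h3 := hM 0 (by simp)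
      have h4 := hM (-(t⁻¹ • x)) (by
        rw [mem_closedBall_zero_iff, norm_neg, norm_smul, norm_inv, norm_norm, ← ht,
          inv_mul_cancel₀ ht0.ne'])
      rw [Real.norm_eq_abs, abs_le] at h3 h4
      have h5 : (1 + t) * f 0 ≤ f x + t * f (-(t⁻¹ • x)) := by
        have := mul_le_mul_of_nonneg_left h2 (by positivity : 0 ≤ 1 + t)
        refine this.trans (le_of_eq ?_)
        field_simp
      nlinarith
  refine ⟨M + (2 * M + 1) ^ 2 / (2 * a), fun x => ?_⟩
  have h2 := h1 x
  have h3 : V x = f x + a / 2 * ‖x‖ ^ 2 := by simp only [hf]; ring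
  rw [h3]
  have h4 : (2 * M + 1) * ‖x‖ ≤ a / 2 * ‖x‖ ^ 2 + (2 * M + 1) ^ 2 / (2 * a) := by
    have : a / 2 * ‖x‖ ^ 2 + (2 * M + 1) ^ 2 / (2 * a) - (2 * M + 1) * ‖x‖ =
      (a * ‖x‖ - (2 * M + 1)) ^ 2 / (2 * a) := by field_simp; ring
    have h5 : 0 ≤ (a * ‖x‖ - (2 * M + 1)) ^ 2 / (2 * a) := by positivity
    linarith
  linarith

theorem Pn.adm (h : Pn κ a V) (ha : 0 < a) : Adm fun x : Ek k => Real.exp (-V x) := by
  obtain ⟨C, hC⟩ := h.grow ha
  exact adm_low h.cont one_pos C fun x => by rw [one_mul]; exact hC x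

/-- the Poincaré inequality -/
theorem Pn.ps (h : Pn κ a V) (ha : 0 < a) : PS a⁻¹ fun x : Ek k => Real.exp (-V x) := by
  have hadm := h.adm ha
  refine ⟨hadm, fun f hf hB hL => ?_⟩
  obtain ⟨B, hB⟩ := hB
  obtain ⟨L, hL⟩ := hL
  set w : Ek k → ℝ := fun x => Real.exp (-V x) with hw
  have hfd : Continuous (fderiv ℝ f) := hf.continuous_fderiv one_ne_zero
  have hi0 := int_of_adm hadm
  have hi1 : Integrable fun x => f x * w x :=
    Pool.Agent.N273.KM.CPAx.int_bdd hadm hf.continuous hB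
  have hi2 : Integrable fun x => f x ^ 2 * w x :=
    Pool.Agent.N273.KM.CPAx.int_bdd hadm (hf.continuous.pow 2) (B := B ^ 2) fun x => by
      rw [abs_pow]; exact pow_le_pow_left₀ (abs_nonneg _) (hB _) 2
  have hi3 : Integrable fun x => ‖fderiv ℝ f x‖ ^ 2 * w x :=
    Pool.Agent.N273.KM.CPAx.int_bdd hadm (hfd.norm.pow 2) (B := L ^ 2) fun x => by
      rw [abs_pow, abs_norm]; exact pow_le_pow_left₀ (norm_nonneg _) (hL _) 2
  -- the truncated inequality
  have htr : ∀ R : ℕ, (∫ x in closedBall (0 : Ek k) R, f x ^ 2 * w x) *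
      (∫ x in closedBall (0 : Ek k) R, w x) - (∫ x in closedBall (0 : Ek k) R, f x * w x) ^ 2 ≤
      a⁻¹ * (∫ x in closedBall (0 : Ek k) R, ‖fderiv ℝ f x‖ ^ 2 * w x) *
        ∫ x in closedBall (0 : Ek k) R, w x := by
    intro R
    set D : Set (Ek k) := closedBall (0 : Ek k) R with hD
    have hDm : MeasurableSet D := measurableSet_closedBall
    have hwc : Continuous w := Real.continuous_exp.comp h.cont.neg
    obtain ⟨M, hM⟩ := (isCompact_closedBall (0 : Ek k) (R : ℝ)).exists_bound_of_continuousOn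
      hwc.continuousOn
    obtain ⟨c, hc⟩ := Pool.Agent.H212R2.KLS.poincare_of_strong (volume : Measure (Ek k))
      (D.indicator w) (fun x => indicator_nonneg (fun y _ => (Real.exp_pos _).le) x)
      (hwc.measurable.indicator hDm) ⟨max M 0, fun x => by
        by_cases hx : x ∈ D
        · rw [indicator_of_mem hx]
          exact ((le_abs_self _).trans (hM x hx)).trans (le_max_left _ _)
        · rw [indicator_of_notMem hx]
          exact le_max_right _ _⟩
      ⟨R, fun x hx => indicator_of_notMem (fun hx' => absurd (mem_closedBall_zero_iff.1 hx')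
        (not_le.2 hx)) _⟩ a ha (fun x y => by
        have hnn : ∀ z, 0 ≤ D.indicator w z := fun z =>
          indicator_nonneg (fun y _ => (Real.exp_pos _).le) z
        by_cases hx : x ∈ D
        · by_cases hy : y ∈ D
          · have hm : (1 / 2 : ℝ) • (x + y) ∈ D := by
              have := (convex_closedBall (0 : Ek k) (R : ℝ)) hx hy
                (by norm_num : (0 : ℝ) ≤ 1 / 2) (by norm_num : (0 : ℝ) ≤ 1 / 2) (by norm_num)
              rwa [← smul_add] at this
            rw [indicator_of_mem hx, indicator_of_mem hy, indicator_of_mem hm]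
            simp only [hw]
            rw [← Real.exp_add, ← Real.exp_nat_mul, ← Real.exp_add]
            refine Real.exp_le_exp.2 ?_
            have := h.mid x y
            push_cast
            linarith
          · rw [indicator_of_notMem hy, mul_zero]
            exact mul_nonneg (sq_nonneg _) (Real.exp_pos _).le
        · rw [indicator_of_notMem hx, zero_mul]
          exact mul_nonneg (sq_nonneg _) (Real.exp_pos _).le) f hf
    have e1 : ∀ g : Ek k → ℝ, ∫ x, g x * D.indicator w x = ∫ x in D, g x * w x := by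
      intro g
      rw [← integral_indicator hDm]
      refine integral_congr_ae (Eventually.of_forall fun x => ?_)
      simp only
      by_cases hx : x ∈ D
      · rw [indicator_of_mem hx, indicator_of_mem hx]
      · rw [indicator_of_notMem hx, indicator_of_notMem hx, mul_zero]
    rw [e1, e1] at hc
    have e2 : ∫ x in D, (f x - c) ^ 2 * w x = (∫ x in D, f x ^ 2 * w x) -
        2 * c * (∫ x in D, f x * w x) + c ^ 2 * ∫ x in D, w x := by
      have j1 : Integrable (fun x => 2 * c * (f x * w x)) (volume.restrict D) :=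
        hi1.integrableOn.const_mul _
      have j2 : Integrable (fun x => f x ^ 2 * w x - 2 * c * (f x * w x)) (volume.restrict D) :=
        hi2.integrableOn.sub j1
      have j3 : Integrable (fun x => c ^ 2 * w x) (volume.restrict D) :=
        hi0.integrableOn.const_mul _
      rw [← integral_const_mul, ← integral_const_mul, ← integral_sub hi2.integrableOn j1,
        ← integral_add j2 j3]
      refine integral_congr_ae (Eventually.of_forall fun x => ?_)
      simp only
      ring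
    rw [e2] at hc
    have hZ : 0 ≤ ∫ x in D, w x := integral_nonneg fun x => (Real.exp_pos _).le
    have h2 := mul_le_mul_of_nonneg_right hc hZ
    nlinarith [sq_nonneg ((∫ x in D, f x * w x) - c * ∫ x in D, w x)]
  have hlim : ∀ g : Ek k → ℝ, Integrable g →
      Tendsto (fun R : ℕ => ∫ x in closedBall (0 : Ek k) R, g x) atTop (𝓝 (∫ x, g x)) := by
    intro g hg
    have h1 : Monotone fun R : ℕ => closedBall (0 : Ek k) (R : ℝ) := fun m n hmn =>
      closedBall_subset_closedBall (by exact_mod_cast hmn)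
    have h2 := tendsto_setIntegral_of_monotone (μ := volume) (f := g)
      (fun R : ℕ => measurableSet_closedBall (x := (0 : Ek k)) (ε := (R : ℝ))) h1 hg.integrableOn
    rw [iUnion_closedBall_nat, setIntegral_univ] at h2
    exact h2
  have h5 := le_of_tendsto_of_tendsto (((hlim _ hi2).mul (hlim _ hi0)).sub ((hlim _ hi1).pow 2))
    (((hlim _ hi3).const_mul a⁻¹).mul (hlim _ hi0)) (Eventually.of_forall htr)
  have hZ := hadm.pos
  unfold VW EW
  have e3 : (∫ x, f x ^ 2 * w x) / (∫ x, w x) - ((∫ x, f x * w x) / ∫ x, w x) ^ 2 =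
      ((∫ x, f x ^ 2 * w x) * (∫ x, w x) - (∫ x, f x * w x) ^ 2) / (∫ x, w x) ^ 2 := by
    field_simp
  have e4 : a⁻¹ * ((∫ x, ‖fderiv ℝ f x‖ ^ 2 * w x) / ∫ x, w x) =
      (a⁻¹ * (∫ x, ‖fderiv ℝ f x‖ ^ 2 * w x) * ∫ x, w x) / (∫ x, w x) ^ 2 := by
    field_simp
  rw [e3, e4]
  exact div_le_div_of_nonneg_right h5 (by positivity)

end

end Pool.Agent.V5helper78.KP
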